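import Mathlib

set_option autoImplicit false

namespace Pool.Agent.Results.MP_c7efa6_co.FppNotCollapsing

/-- The comparability graph of an ordered set: distinct elements are adjacent iff comparable. -/
def comparabilityGraph (P : Type) [PartialOrder P] : SimpleGraph P where
  Adj x y := x ≠ y ∧ (x ≤ y ∨ y ≤ x)
  symm := ⟨fun _ _ h => ⟨h.1.symm, h.2.symm⟩⟩
  loopless := ⟨fun _ h => h.1 rfl⟩

/-- The maximal (under inclusion) cliques of a graph. -/
def MaxClique {V : Type} (G : SimpleGraph V) : Type :=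
  {s : Set V // G.IsClique s ∧ ∀ t : Set V, G.IsClique t → s ⊆ t → t = s}

/-- The clique graph `K(G)`: the vertices are the maximal cliques of `G`, and two distinct maximal
cliques are adjacent iff they share at least one vertex. -/
def cliqueGraph {V : Type} (G : SimpleGraph V) : SimpleGraph (MaxClique G) where
  Adj s t := s ≠ t ∧ (s.1 ∩ t.1).Nonempty
  symm := ⟨fun _ _ h => ⟨h.1.symm, by rw [Set.inter_comm]; exact h.2⟩⟩
  loopless := ⟨fun _ h => h.1 rfl⟩

/-- The iterated clique graphs `K^n(G)` of a graph `G` (a graph is bundled with its vertex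
type). -/
def iterClique (G : Σ V : Type, SimpleGraph V) : ℕ → Σ V : Type, SimpleGraph V
  | 0 => G
  | n + 1 => ⟨MaxClique (iterClique G n).2, cliqueGraph (iterClique G n).2⟩

/-- `P` has collapsing iterated clique graphs: some `K^n(G(P))` has exactly one vertex. -/
def Collapsing (P : Type) [PartialOrder P] : Prop :=
  ∃ n : ℕ, Nat.card (iterClique ⟨P, comparabilityGraph P⟩ n).1 = 1

/-- `P` has the fixed point property. -/
def FPP (P : Type) [PartialOrder P] : Prop :=
  ∀ f : P → P, Monotone f → ∃ x, f x = x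

/-! ### A `ZMod 2`-cocycle invariant of the clique operator -/

section invariant

variable {V : Type}

/-- equal or adjacent -/
def Rel (G : SimpleGraph V) (a b : V) : Prop := a = b ∨ G.Adj a b

theorem Rel.symm {G : SimpleGraph V} {a b : V} (h : Rel G a b) : Rel G b a := by
  rcases h with h | h
  · exact Or.inl h.symm
  · exact Or.inr h.symm

def Cocycle (G : SimpleGraph V) (c : V → V → ZMod 2) : Prop :=
  ∀ a b d, Rel G a b → Rel G b d → Rel G a d → c a b + c b d = c a d

def Coboundary (G : SimpleGraph V) (c : V → V → ZMod 2) : Prop :=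
  ∃ g : V → ZMod 2, ∀ a b, Rel G a b → c a b = g a + g b

def Twisted (G : SimpleGraph V) : Prop :=
  ∃ c : V → V → ZMod 2, Cocycle G c ∧ ¬ Coboundary G c

theorem Cocycle.self {G : SimpleGraph V} {c : V → V → ZMod 2} (h : Cocycle G c) (a : V) :
    c a a = 0 := by
  have := h a a a (Or.inl rfl) (Or.inl rfl) (Or.inl rfl)
  simpa using this

theorem z2 (x : ZMod 2) : x + x = 0 := by
  revert x; decide

theorem z2_aux : ∀ X Y Z W : ZMod 2, X + Y = Z + W → Z + X = W + Y := by decide

theorem Cocycle.comm {G : SimpleGraph V} {c : V → V → ZMod 2} (h : Cocycle G c) {a b : V}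
    (hab : Rel G a b) : c a b = c b a := by
  have h1 := h a b a hab hab.symm (Or.inl rfl)
  rw [h.self] at h1
  have h2 := z2 (c b a)
  exact add_right_cancel (h1.trans h2.symm)

theorem Twisted.nontrivial {G : SimpleGraph V} (h : Twisted G) : Nontrivial V := by
  obtain ⟨c, hc, hn⟩ := h
  by_contra hV
  rw [not_nontrivial_iff_subsingleton] at hV
  apply hn
  refine ⟨fun _ => 0, fun a b _ => ?_⟩
  have : a = b := Subsingleton.elim a b
  subst this
  simpa using hc.self a

theorem rel_of_mem {G : SimpleGraph V} (Q : MaxClique G) {a b : V} (ha : a ∈ Q.1) (hb : b ∈ Q.1) :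
    Rel G a b := by
  by_cases h : a = b
  · exact Or.inl h
  · exact Or.inr (Q.2.1 ha hb h)

theorem exists_maxClique [Finite V] {G : SimpleGraph V} {s : Set V} (hs : G.IsClique s) :
    ∃ Q : MaxClique G, s ⊆ Q.1 := by
  obtain ⟨m, hm, hmax⟩ := Finite.exists_le_maximal (p := fun t : Set V => G.IsClique t) hs
  refine ⟨⟨m, hmax.prop, fun t ht hmt => ?_⟩, hm⟩
  exact le_antisymm (hmax.le_of_ge ht hmt) hmt

theorem exists_maxClique_of_rel [Finite V] {G : SimpleGraph V} {a b : V} (h : Rel G a b) :
    ∃ Q : MaxClique G, a ∈ Q.1 ∧ b ∈ Q.1 := by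
  have hs : G.IsClique ({a, b} : Set V) := by
    intro x hx y hy hxy
    rcases hx with rfl | hx <;> rcases hy with rfl | hy
    · exact absurd rfl hxy
    · rw [Set.mem_singleton_iff] at hy; subst hy
      rcases h with h | h
      · exact absurd h hxy
      · exact h
    · rw [Set.mem_singleton_iff] at hx; subst hx
      rcases h with h | h
      · exact absurd h.symm hxy
      · exact h.symm
    · rw [Set.mem_singleton_iff] at hx hy
      exact absurd (hx.trans hy.symm) hxy
  obtain ⟨Q, hQ⟩ := exists_maxClique hs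
  exact ⟨Q, hQ (by simp), hQ (by simp)⟩

theorem MaxClique.nonempty [Nonempty V] {G : SimpleGraph V} (Q : MaxClique G) : Q.1.Nonempty := by
  by_contra h
  rw [Set.not_nonempty_iff_eq_empty] at h
  obtain ⟨v⟩ := ‹Nonempty V›
  have := Q.2.2 {v} (by simp) (by rw [h]; exact Set.empty_subset _)
  rw [h] at this
  exact Set.singleton_ne_empty v this

theorem Twisted.cliqueGraph [Finite V] {G : SimpleGraph V} (h : Twisted G) :
    Twisted (cliqueGraph G) := by
  classical
  haveI := h.nontrivial
  obtain ⟨c, hc, hn⟩ := h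
  have hbase : ∀ Q : MaxClique G, ∃ v, v ∈ Q.1 := fun Q => Q.nonempty
  choose v hv using hbase
  have hmeet : ∀ Q Q' : MaxClique G, Rel (FppNotCollapsing.cliqueGraph G) Q Q' →
      ∃ x, x ∈ Q.1 ∧ x ∈ Q'.1 := by
    intro Q Q' hQ
    rcases hQ with rfl | hQ
    · exact ⟨v Q, hv Q, hv Q⟩
    · obtain ⟨x, hx⟩ := hQ.2
      exact ⟨x, hx.1, hx.2⟩
  -- the transported cocycle
  let c' : MaxClique G → MaxClique G → ZMod 2 := fun Q Q' =>
    if hQ : ∃ x, x ∈ Q.1 ∧ x ∈ Q'.1 then
      c (v Q) (Classical.choose hQ) + c (Classical.choose hQ) (v Q') else 0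
  have hc' : ∀ (Q Q' : MaxClique G) (x : V), x ∈ Q.1 → x ∈ Q'.1 →
      c' Q Q' = c (v Q) x + c x (v Q') := by
    intro Q Q' x hx hx'
    have hQ : ∃ x, x ∈ Q.1 ∧ x ∈ Q'.1 := ⟨x, hx, hx'⟩
    have hd : c' Q Q' = c (v Q) (Classical.choose hQ) + c (Classical.choose hQ) (v Q') := by
      simp only [c']
      rw [dif_pos hQ]
    rw [hd]
    obtain ⟨hy, hy'⟩ := Classical.choose_spec hQ
    set y := Classical.choose hQ
    -- c (v Q) y + c y x = c (v Q) x ; c y x + c x (v Q') = c y (v Q')
    have e1 := hc (v Q) y x (rel_of_mem Q (hv Q) hy) (rel_of_mem Q hy hx) (rel_of_mem Q (hv Q) hx)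
    have e2 := hc y x (v Q') (rel_of_mem Q hy hx) (rel_of_mem Q' hx' (hv Q'))
      (rel_of_mem Q' hy' (hv Q'))
    rw [← e1, ← e2]
    ring
  refine ⟨c', ?_, ?_⟩
  · intro Q₁ Q₂ Q₃ h12 h23 h13
    obtain ⟨x, hx1, hx2⟩ := hmeet _ _ h12
    obtain ⟨y, hy2, hy3⟩ := hmeet _ _ h23
    obtain ⟨z, hz1, hz3⟩ := hmeet _ _ h13
    rw [hc' _ _ x hx1 hx2, hc' _ _ y hy2 hy3, hc' _ _ z hz1 hz3]
    have e1 := hc (v Q₁) z x (rel_of_mem Q₁ (hv _) hz1) (rel_of_mem Q₁ hz1 hx1)
      (rel_of_mem Q₁ (hv _) hx1)
    have e2 := hc x (v Q₂) y (rel_of_mem Q₂ hx2 (hv _)) (rel_of_mem Q₂ (hv _) hy2)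
      (rel_of_mem Q₂ hx2 hy2)
    have e3 := hc z y (v Q₃) (rel_of_mem Q₃ hz3 hy3) (rel_of_mem Q₃ hy3 (hv _))
      (rel_of_mem Q₃ hz3 (hv _))
    have e4 := hc z x y (rel_of_mem Q₁ hz1 hx1) (rel_of_mem Q₂ hx2 hy2) (rel_of_mem Q₃ hz3 hy3)
    -- goal: c v1 x + c x v2 + (c v2 y + c y v3) = c v1 z + c z v3
    rw [← e1, ← e3, ← e4, ← e2]
    ring_nf
    try
      have h2 : (2 : ZMod 2) = 0 := by decide
      rw [h2]
      ring
  · rintro ⟨g', hg'⟩
    apply hn
    have hcov : ∀ a : V, ∃ Q : MaxClique G, a ∈ Q.1 := by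
      intro a
      obtain ⟨Q, hQ, _⟩ := exists_maxClique_of_rel (G := G) (a := a) (b := a) (Or.inl rfl)
      exact ⟨Q, hQ⟩
    choose q hq using hcov
    have key : ∀ (a : V) (Q : MaxClique G), a ∈ Q.1 →
        g' (q a) + c (v (q a)) a = g' Q + c (v Q) a := by
      intro a Q ha
      have hrel : Rel (FppNotCollapsing.cliqueGraph G) (q a) Q := by
        by_cases h : q a = Q
        · exact Or.inl h
        · exact Or.inr ⟨h, ⟨a, hq a, ha⟩⟩
      have e1 := hg' (q a) Q hrel
      rw [hc' _ _ a (hq a) ha] at e1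
      have e2 := hc.comm (rel_of_mem Q ha (hv Q))
      rw [e2] at e1
      clear e2
      generalize c (v (q a)) a = X at e1 ⊢
      generalize c (v Q) a = Y at e1 ⊢
      generalize g' (q a) = Z at e1 ⊢
      generalize g' Q = W at e1 ⊢
      exact z2_aux X Y Z W e1
    refine ⟨fun a => g' (q a) + c (v (q a)) a, fun a b hab => ?_⟩
    obtain ⟨Q, ha, hb⟩ := exists_maxClique_of_rel hab
    show c a b = (g' (q a) + c (v (q a)) a) + (g' (q b) + c (v (q b)) b)
    rw [key a Q ha, key b Q hb]
    have e1 := hc (v Q) a b (rel_of_mem Q (hv Q) ha) hab (rel_of_mem Q (hv Q) hb)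
    rw [← e1]
    generalize c (v Q) a = X
    generalize c a b = Y
    generalize g' Q = Z
    revert X Y Z
    decide

end invariant

/-! ### The thirteen-element ordered set (faces of the hemicube) -/

/-- bit masks of the up-sets -/
def upM : ℕ → ℕ
  | 0 => 7505 | 1 => 7826 | 2 => 7780 | 3 => 7592 | 4 => 6160 | 5 => 6176 | 6 => 5184
  | 7 => 5248 | 8 => 3328 | 9 => 3584 | 10 => 1024 | 11 => 2048 | 12 => 4096 | _ => 0

/-- bit masks of the down-sets -/
def dnM : ℕ → ℕ
  | 0 => 1 | 1 => 2 | 2 => 4 | 3 => 8 | 4 => 19 | 5 => 44 | 6 => 69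
  | 7 => 138 | 8 => 265 | 9 => 518 | 10 => 1999 | 11 => 2879 | 12 => 4351 | _ => 0

/-- bit masks of the cocycle -/
def ccM : ℕ → ℕ
  | 0 => 0 | 1 => 1024 | 2 => 2560 | 3 => 4256 | 4 => 0 | 5 => 2056 | 6 => 0
  | 7 => 1032 | 8 => 0 | 9 => 1028 | 10 => 642 | 11 => 36 | 12 => 8 | _ => 0

structure Hemicube where
  val : Fin 13

theorem Hemicube.ext' {a b : Hemicube} (h : a.val = b.val) : a = b := by
  cases a; cases b; simp_all

instance : Finite Hemicube :=
  Finite.of_injective Hemicube.val (fun _ _ h => Hemicube.ext' h)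

instance : Nonempty Hemicube := ⟨⟨0⟩⟩

theorem dn_iff : ∀ a b : Fin 13, (dnM b.1).testBit a.1 = (upM a.1).testBit b.1 := by decide +kernel
theorem up_refl : ∀ a : Fin 13, (upM a.1).testBit a.1 = true := by decide +kernel
theorem up_trans : ∀ a b c : Fin 13, (upM a.1).testBit b.1 = true → (upM b.1).testBit c.1 = true →
    (upM a.1).testBit c.1 = true := by decide +kernel
theorem up_antisymm : ∀ a b : Fin 13, (upM a.1).testBit b.1 = true →
    (upM b.1).testBit a.1 = true → a = b := by decide +kernel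

instance : PartialOrder Hemicube where
  le a b := (upM a.val.1).testBit b.val.1 = true
  le_refl a := up_refl a.val
  le_trans a b c := up_trans a.val b.val c.val
  le_antisymm a b h1 h2 := Hemicube.ext' (up_antisymm _ _ h1 h2)

theorem le_def (a b : Hemicube) : a ≤ b ↔ (upM a.val.1).testBit b.val.1 = true := Iff.rfl

/-! #### the fixed point property, by an exhaustive search -/

def lt' (x y : ℕ) : Bool := (upM x).testBit y && !(x == y)

def restr (x v : ℕ) : List ℕ → List ℕ → List ℕ
  | y :: ys, E :: Es =>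
      (if lt' x y then E &&& upM v else if lt' y x then E &&& dnM v else E) :: restr x v ys Es
  | _, _ => []

/-- `go vars doms = true` certifies that no order-preserving map sends each variable into its
domain. -/
def go : List ℕ → List ℕ → Bool
  | x :: xs, D :: Ds => (List.range 13).all fun v => !(D.testBit v) || go xs (restr x v xs Ds)
  | _, _ => false

theorem go_sound (f : Fin 13 → Fin 13)
    (hf : ∀ a b : Fin 13, (upM a.1).testBit b.1 = true → (upM (f a).1).testBit (f b).1 = true) :
    ∀ (vars : List (Fin 13)) (doms : List ℕ),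
      (List.Forall₂ (fun (x : Fin 13) D => D.testBit (f x).1 = true) vars doms) →
      go (vars.map Fin.val) doms = false := by
  intro vars
  induction vars with
  | nil => intro doms h; cases doms <;> simp [go]
  | cons x xs ih =>
    intro doms h
    cases h with
    | cons h1 h2 =>
      rename_i D Ds
      simp only [List.map_cons, go]
      rw [List.all_eq_false]
      refine ⟨(f x).1, List.mem_range.2 (f x).2, ?_⟩
      rw [h1]
      have := ih (restr x.1 (f x).1 (xs.map Fin.val) Ds) ?_
      · rw [this]; decide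
      · clear ih h1
        induction h2 with
        | nil => simp [restr]
        | cons h3 h4 ih2 =>
          rename_i y E ys Es
          simp only [List.map_cons, restr]
          refine List.Forall₂.cons ?_ ih2
          split_ifs with c1 c2
          · rw [Nat.testBit_and, h3]
            simp only [lt', Bool.and_eq_true] at c1
            rw [hf x y c1.1]; rfl
          · rw [Nat.testBit_and, h3]
            simp only [lt', Bool.and_eq_true] at c2
            rw [dn_iff, hf y x c2.1]; rfl
          · exact h3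

def order : List (Fin 13) := [2, 10, 12, 6, 0, 4, 1, 11, 9, 5, 3, 7, 8]

theorem go_true : go (order.map Fin.val) (order.map fun x => 8191 ^^^ (1 <<< x.1)) = true := by
  decide +kernel

theorem fpp : FPP Hemicube := by
  intro F hF
  by_contra hno
  push Not at hno
  let f : Fin 13 → Fin 13 := fun a => (F ⟨a⟩).val
  have h := go_sound f (fun a b hab => hF (show (⟨a⟩ : Hemicube) ≤ ⟨b⟩ from hab)) order
    (order.map fun x => 8191 ^^^ (1 <<< x.1)) ?_
  · rw [go_true] at h
    exact absurd h (by decide)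
  · rw [List.forall₂_map_right_iff]
    have hne : ∀ a : Fin 13, (8191 ^^^ (1 <<< a.1)).testBit (f a).1 = true := by
      intro a
      have h1 : f a ≠ a := by
        intro h
        exact hno ⟨a⟩ (Hemicube.ext' h)
      have h2 : ∀ a b : Fin 13, b ≠ a → (8191 ^^^ (1 <<< a.1)).testBit b.1 = true := by
        decide +kernel
      exact h2 a (f a) h1
    exact List.forall₂_same.2 (fun a _ => hne a)

/-! #### the cocycle -/

def cc (a b : Hemicube) : ZMod 2 := if (ccM a.val.1).testBit b.val.1 then 1 else 0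

theorem cc_cocycle_aux : ∀ a b d : Fin 13,
    ((upM a.1).testBit b.1 || (upM b.1).testBit a.1) = true →
    ((upM b.1).testBit d.1 || (upM d.1).testBit b.1) = true →
    ((upM a.1).testBit d.1 || (upM d.1).testBit a.1) = true →
    xor ((ccM a.1).testBit b.1) ((ccM b.1).testBit d.1) = (ccM a.1).testBit d.1 := by
  decide +kernel

theorem rel_iff (a b : Hemicube) (h : Rel (comparabilityGraph Hemicube) a b) :
    ((upM a.val.1).testBit b.val.1 || (upM b.val.1).testBit a.val.1) = true := by
  rcases h with rfl | ⟨_, h | h⟩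
  · rw [Bool.or_eq_true]; exact Or.inl (up_refl _)
  · rw [Bool.or_eq_true]; exact Or.inl h
  · rw [Bool.or_eq_true]; exact Or.inr h

theorem xor_add : ∀ p q r : Bool, xor p q = r →
    ((if p = true then (1 : ZMod 2) else 0) + (if q = true then 1 else 0)) =
      (if r = true then 1 else 0) := by
  decide

theorem twisted : Twisted (comparabilityGraph Hemicube) := by
  refine ⟨cc, ?_, ?_⟩
  · intro a b d h1 h2 h3
    exact xor_add _ _ _ (cc_cocycle_aux _ _ _ (rel_iff _ _ h1) (rel_iff _ _ h2) (rel_iff _ _ h3))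
  · rintro ⟨g, hg⟩
    have adj : ∀ a b : Fin 13, (upM a.1).testBit b.1 = true →
        cc ⟨a⟩ ⟨b⟩ = g ⟨a⟩ + g ⟨b⟩ := by
      intro a b hab
      apply hg
      by_cases h : (⟨a⟩ : Hemicube) = ⟨b⟩
      · exact Or.inl h
      · exact Or.inr ⟨h, Or.inl hab⟩
    have h1 := adj 0 4 (by decide +kernel)
    have h2 := adj 1 4 (by decide +kernel)
    have h3 := adj 1 9 (by decide +kernel)
    have h4 := adj 2 9 (by decide +kernel)
    have h5 := adj 2 6 (by decide +kernel)
    have h6 := adj 0 6 (by decide +kernel)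
    have e1 : cc ⟨0⟩ ⟨4⟩ = 0 := by decide +kernel
    have e2 : cc ⟨1⟩ ⟨4⟩ = 0 := by decide +kernel
    have e3 : cc ⟨1⟩ ⟨9⟩ = 0 := by decide +kernel
    have e4 : cc ⟨2⟩ ⟨9⟩ = 1 := by decide +kernel
    have e5 : cc ⟨2⟩ ⟨6⟩ = 0 := by decide +kernel
    have e6 : cc ⟨0⟩ ⟨6⟩ = 0 := by decide +kernel
    rw [e1] at h1
    rw [e2] at h2
    rw [e3] at h3
    rw [e4] at h4
    rw [e5] at h5
    rw [e6] at h6
    generalize g ⟨0⟩ = x0 at *
    generalize g ⟨1⟩ = x1 at *
    generalize g ⟨2⟩ = x2 at *
    generalize g ⟨4⟩ = x4 at *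
    generalize g ⟨6⟩ = x6 at *
    generalize g ⟨9⟩ = x9 at *
    clear hg adj e1 e2 e3 e4 e5 e6 g
    revert h1 h2 h3 h4 h5 h6
    revert x0 x1 x2 x4 x6 x9
    decide +kernel

theorem iter_twisted (n : ℕ) :
    Finite (iterClique ⟨Hemicube, comparabilityGraph Hemicube⟩ n).1 ∧
      Twisted (iterClique ⟨Hemicube, comparabilityGraph Hemicube⟩ n).2 := by
  induction n with
  | zero => exact ⟨inferInstanceAs (Finite Hemicube), twisted⟩
  | succ n ih =>
    obtain ⟨h1, h2⟩ := ih
    haveI := h1
    refine ⟨?_, h2.cliqueGraph⟩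
    show Finite (MaxClique _)
    unfold MaxClique
    infer_instance

theorem card_ge (n : ℕ) :
    2 ≤ Nat.card (iterClique ⟨Hemicube, comparabilityGraph Hemicube⟩ n).1 := by
  obtain ⟨h1, h2⟩ := iter_twisted n
  haveI := h1
  haveI := h2.nontrivial
  exact Finite.one_lt_card

/-- There is a finite nonempty ordered set with the fixed point property all of whose iterated
clique graphs (of its comparability graph) have at least two vertices; so the fixed point property
does not imply collapsing iterated clique graphs. -/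
theorem result :
    (∃ (P : Type) (_ : PartialOrder P), Finite P ∧ Nonempty P ∧ FPP P ∧
      ∀ n : ℕ, 2 ≤ Nat.card (iterClique ⟨P, comparabilityGraph P⟩ n).1) ∧
    ¬ (∀ (P : Type) (_ : PartialOrder P), Finite P → Nonempty P → FPP P → Collapsing P) := by
  constructor
  · exact ⟨Hemicube, inferInstance, inferInstance, inferInstance, fpp, card_ge⟩
  · intro h
    obtain ⟨n, hn⟩ := h Hemicube inferInstance inferInstance inferInstance fpp
    have := card_ge n
    omega

end Pool.Agent.Results.MP_c7efa6_co.FppNotCollapsing
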